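import Pool.Agent.Y546.WQ.Stm

/-!
# The cyclotomic field of prime degree has the bundled properties
-/

set_option autoImplicit false

namespace Pool.Agent.Y978.WQ

open NumberField IsDedekindDomain Pool.Agent.Y546.WQ

section

variable (p : ℕ) [hp : Fact p.Prime]

/-- the integers of the cyclotomic field are polynomials in the root of unity -/
theorem gen_aux (C : Type) [Field C] [NumberField C] [IsCyclotomicExtension {p} ℚ C] (z : C)
    (hz : IsPrimitiveRoot z p) (x : C) (hx : IsIntegral ℤ x) :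
    ∃ f : Polynomial ℤ, x = Polynomial.aeval z f := by
  have : NeZero p := ⟨hp.1.ne_zero⟩
  have h := IsCyclotomicExtension.Rat.isIntegralClosure_adjoin_singleton (n := p) (K := C) hz
  obtain ⟨y, hy⟩ := h.isIntegral_iff.1 hx
  have hy2 : (y : C) ∈ (Polynomial.aeval (R := ℤ) z).range := by
    rw [← Algebra.adjoin_singleton_eq_range_aeval]
    exact y.2
  obtain ⟨f, hf⟩ := hy2
  refine ⟨f, ?_⟩
  rw [← hy]
  exact hf.symm

/-- a prime number other than `p` is not ramified -/
theorem unram_aux (C : Type) [Field C] [NumberField C] [IsCyclotomicExtension {p} ℚ C]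
    (P : HeightOneSpectrum (𝓞 C)) (q : ℕ) (hq : q.Prime) (hqp : q ≠ p)
    (h1 : ((q : ℕ) : 𝓞 C) ∈ P.asIdeal) : ((q : ℕ) : 𝓞 C) ∉ P.asIdeal ^ 2 := by
  have : NeZero p := ⟨hp.1.ne_zero⟩
  have : Fact q.Prime := ⟨hq⟩
  have := P.isPrime
  have hnd : ¬ q ∣ p := fun h => hqp ((Nat.prime_dvd_prime_iff_eq hq hp.1).1 h)
  have hlo : P.asIdeal.LiesOver (Ideal.span {(q : ℤ)}) := by
    constructor
    have hmax : (Ideal.span {(q : ℤ)}).IsMaximal := by
      apply PrincipalIdealRing.isMaximal_of_irreducible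
      exact (Nat.prime_iff_prime_int.mp hq).irreducible
    refine (hmax.eq_of_le ?_ ?_)
    · exact (Ideal.IsPrime.under ℤ P.asIdeal).ne_top
    · rw [Ideal.span_singleton_le_iff_mem, Ideal.mem_comap]
      simpa using h1
  have hr := IsCyclotomicExtension.Rat.ramificationIdx_eq_of_not_dvd q C P.asIdeal (m := p) hnd
  have hne : (Ideal.span {(q : ℤ)}).map (algebraMap ℤ (𝓞 C)) ≠ ⊥ := by
    rw [Ideal.map_span, Set.image_singleton]
    intro h
    rw [Ideal.span_singleton_eq_bot] at h
    simp only [algebraMap_int_eq, eq_intCast, Int.cast_natCast, Nat.cast_eq_zero] at h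
    exact hq.ne_zero h
  rw [Ideal.IsDedekindDomain.ramificationIdx_eq_multiplicity (Ideal.span {(q : ℤ)}) P.asIdeal hne]
    at hr
  intro h2
  have hdvd : P.asIdeal ^ 2 ∣ (Ideal.span {(q : ℤ)}).map (algebraMap ℤ (𝓞 C)) := by
    rw [Ideal.dvd_iff_le, Ideal.map_span, Set.image_singleton, Ideal.span_singleton_le_iff_mem]
    simpa using h2
  have hfin : FiniteMultiplicity P.asIdeal ((Ideal.span {(q : ℤ)}).map (algebraMap ℤ (𝓞 C))) := by
    apply FiniteMultiplicity.of_prime_left
    · exact Ideal.prime_of_isPrime P.ne_bot P.isPrime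
    · exact hne
  have := hfin.le_multiplicity_of_pow_dvd hdvd
  omega

/-- an integer divisible by `1 - z` is divisible by `p` -/
theorem lam_aux (C : Type) [Field C] [NumberField C] [IsCyclotomicExtension {p} ℚ C] (z : C)
    (hz : IsPrimitiveRoot z p) (m : ℤ) (h : ∃ y : C, IsIntegral ℤ y ∧ (m : C) = (1 - z) * y) :
    (p : ℤ) ∣ m := by
  have : NeZero p := ⟨hp.1.ne_zero⟩
  obtain ⟨y, hy, hm⟩ := h
  rw [← IsCyclotomicExtension.Rat.zeta_sub_one_dvd_intCast_iff' p hz (K := C)]
  obtain ⟨Y, hY⟩ : ∃ Y : 𝓞 C, algebraMap (𝓞 C) C Y = y := ⟨⟨y, hy⟩, rfl⟩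
  refine ⟨-Y, ?_⟩
  apply RingOfIntegers.coe_injective
  rw [map_intCast, map_mul, map_sub, map_neg, map_one, hm, hY]
  have h3 : algebraMap (𝓞 C) C hz.toInteger = z := rfl
  rw [h3]
  ring

/-- every cyclotomic extension has all the bundled properties -/
theorem cyc_aux (C : Type) [Field C] [NumberField C] [hC : IsCyclotomicExtension {p} ℚ C]
    (hp2 : p ≠ 2) : Nonempty (Cyc p C) := by
  have : NeZero p := ⟨hp.1.ne_zero⟩
  have hirr : Irreducible (Polynomial.cyclotomic p ℚ) :=
    Polynomial.cyclotomic.irreducible_rat hp.1.pos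
  have hz : IsPrimitiveRoot (IsCyclotomicExtension.zeta p ℚ C) p :=
    IsCyclotomicExtension.zeta_spec p ℚ C
  let e : (C ≃ₐ[ℚ] C) ≃* (ZMod p)ˣ := IsCyclotomicExtension.autEquivPow C hirr
  refine ⟨?_⟩
  refine
    { z := IsCyclotomicExtension.zeta p ℚ C
      prim := hz
      σ := e.symm.toMonoidHom
      σ_z := ?_
      all := ?_
      gen := gen_aux p C _ hz
      tors := ?_
      rank := ?_
      unram := unram_aux p C
      lam := lam_aux p C _ hz }
  · intro t
    have h := hz.autToPow_spec ℚ (e.symm t)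
    have h2 : hz.autToPow ℚ (e.symm t) = t := e.apply_symm_apply t
    rw [h2] at h
    exact h.symm
  · intro τ
    exact ⟨e τ, e.symm_apply_apply τ⟩
  · intro u hu
    obtain ⟨r, _, hr⟩ := hz.exists_pow_or_neg_mul_pow_of_isOfFinOrder
      (hp.1.odd_of_ne_two hp2) hu
    exact ⟨r, hr⟩
  · rw [IsCyclotomicExtension.finrank C hirr, Nat.totient_prime hp.1]

end

/-- the cyclotomic field has all the bundled properties -/
theorem main : S_CYC := by
  intro p hp hp2
  have : NeZero p := ⟨hp.1.ne_zero⟩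
  have : NeZero ((p : ℕ) : ℚ) := ⟨by exact_mod_cast hp.1.ne_zero⟩
  have h := CyclotomicField.isCyclotomicExtension p ℚ
  have h2 : @IsCyclotomicExtension {p} ℚ (CyclotomicField p ℚ) _ _ DivisionRing.toRatAlgebra := by
    have e : (DivisionRing.toRatAlgebra : Algebra ℚ (CyclotomicField p ℚ)) =
        CyclotomicField.algebra p ℚ := Subsingleton.elim _ _
    rw [e]
    exact h
  exact ⟨CyclotomicField p ℚ, inferInstance, inferInstance,
    cyc_aux p (CyclotomicField p ℚ) (hC := h2) hp2⟩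

end Pool.Agent.Y978.WQ
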